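import Pool.Agent.H18.XZ.TB
import Pool.Agent.H10.AVH.SUM

/-!
# Row BLF: bad blocks are rare if all other tables are fixed
-/

set_option autoImplicit false

namespace Pool.Agent.H13.XZ

open Finset Pool.Agent.H6.NB Pool.Agent.H70.OQ Pool.Agent.H70.EH Pool.Agent.H70.EI Pool.Agent.H78.XQ
open Pool.Agent.H66.IQ Pool.Agent.H66.AV
open Pool.Agent.H18.XZ
open Pool.Agent.H10.AVH (sum_val01)

theorem Lof_ne {A Z : Type} [Fintype Z] [DecidableEq Z] [Nonempty Z] (l : A × Z → Bool) (a : A) :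
    (Lof l a).Nonempty := by
  unfold Lof
  split_ifs with h
  · exact univ_nonempty
  · exact nonempty_iff_ne_empty.2 h

theorem ic_nn (p : Prop) : 0 ≤ ic p := by
  unfold ic; split_ifs <;> norm_num

theorem ic_le1 (p : Prop) : ic p ≤ 1 := by
  unfold ic; split_ifs <;> norm_num

open Classical in
theorem pf_BLF (hBLD : Pool.Agent.H18.XZ.T_BLD) (hMAS : Pool.Agent.H18.XZ.T_MAS) (hABS : Pool.Agent.H18.XZ.T_ABS)
    (hTBZ : Pool.Agent.H18.XZ.T_TBZ)
    (hSYM : Pool.Agent.H70.OQ.T_SYM) (hLIV : Pool.Agent.H70.OQ.T_LIV)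
    (hLWS : Pool.Agent.H70.OQ.T_LWS) (hWTS : Pool.Agent.H18.XZ.T_WTS) :
    Pool.Agent.H18.XZ.T_BLF := by
  intro ι J _ _ _ _ _ _ n k m w G G' M q ε e he hw hmw hq hq64 hG hM hcard hG'M hε hε1 hW hWJ A hA
    Q hQ z
  obtain ⟨R, hR⟩ : ∃ R : Type, R = (ι × J) := ⟨_, rfl⟩
  have hq1 : q ≤ 1 := by
    have h1 : (1 : ℝ) ≤ w := by exact_mod_cast hw
    nlinarith
  choose Ψ hΨc hΨs hΨm using fun r : ι × J => hMAS k m (A (e r)) (hA (e r))
  -- the values
  let v : (ι × J → Hid (Fin n → Bool) (Ys n) k) → ι × J → (ι × J → Option (Fin n → Bool)) → ℝ :=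
    fun H r c => (A (e r)).val (Q (tby e z H (pat c)))
  let bad : (ι × J → Hid (Fin n → Bool) (Ys n) k) → (ι × J → Bool × (Fin n → Bool)) → Prop :=
    fun H ω => ε * Fintype.card (ι × J) ≤ |e0 (v H) ω| ∨ ε * Fintype.card (ι × J) ≤ e1 (v H) ω
  have hbad : ∀ b H u, Bdb A Q ε e (zby e z b H u) ↔ bad H (fun r => (b r, u r)) := by
    intro b H u
    obtain ⟨t1, t2, t3⟩ := hTBZ (ι × J) n k e he z b H u
    have s0 : ∀ r, v0 A Q (zby e z b H u) (e r) = v H r (rem r (cf fun r => (b r, u r))) := by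
      intro r
      show (A (e r)).val (Q (tbl (zer (zby e z b H u) (e r)))) = _
      rw [t3 r]
    have s1' : ∀ r, v1 A Q (zby e z b H u) (e r) = v H r (cf fun r => (b r, u r)) := by
      intro r
      show (A (e r)).val (Q (tbl (zby e z b H u))) = _
      rw [t1]
    have s2 : ∀ r, (zby e z b H u (e r)).1 = b r := fun r => by rw [t2 r]
    unfold Bdb
    simp only [s0, s1', s2]
    exact Iff.rfl
  -- the inequality for fixed live rows and hidden children
  let DTg : (ι × J) × (Fin n → Bool) → Bool → Prop := fun _ _ => True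
  let K : ℝ := 12 / ε * Real.exp (-(ε ^ 2 * Fintype.card ι / 8))
  have hK : 0 ≤ K := by positivity
  let Lbad : (((ι × J) × (Fin n → Bool)) → Bool) → Prop := fun l =>
    ∃ a : ι × J, (univ.filter fun z => l (a, z) = true).card < M
  let Qd : (((ι × J) × (Fin n → Bool)) → Bool) → (ι × J → Hid (Fin n → Bool) (Ys n) k) →
      Machine k × List Bool → Prop := fun l H c =>
    ¬ ∃ T : Pool.Agent.H68.AC.DT ((ι × J) × (Fin n → Bool)), T.depth ≤ w ∧
      ∀ y, (∀ p, l p = false → y p = true) → (T.eval y = true ↔ c.2 ∈ c.1.lang (Q (tby e z H y)))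
  have hfix : ∀ l H, ∑ ω : ι × J → Bool × (Fin n → Bool), wt (Lof l) ω * ic (bad H ω) ≤
      ic (Lbad l) + ∑ r, ∑ c ∈ Ψ r, ic (Qd l H c) + K := by
    intro l H
    have hne : ∀ r, (Lof l r).Nonempty := fun r => Lof_ne l r
    obtain ⟨w1, w2, w3, w4⟩ := hWTS (ι × J) (Fin n → Bool) (Lof l) hne
    have hS0 : 0 ≤ ∑ r, ∑ c ∈ Ψ r, ic (Qd l H c) :=
      Finset.sum_nonneg fun r _ => Finset.sum_nonneg fun c _ => ic_nn _
    have htriv : ∑ ω : ι × J → Bool × (Fin n → Bool), wt (Lof l) ω * ic (bad H ω) ≤ 1 := by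
      rw [← w1]
      exact Finset.sum_le_sum fun ω _ => mul_le_of_le_one_right (w2 ω) (ic_le1 _)
    by_cases h1 : Lbad l
    · have : ic (Lbad l) = 1 := if_pos h1
      rw [this]; linarith
    by_cases h2 : ∃ r, ∃ c ∈ Ψ r, Qd l H c
    · obtain ⟨r, c, hc, hQc⟩ := h2
      have h3 : 1 ≤ ∑ r, ∑ c ∈ Ψ r, ic (Qd l H c) := by
        have h4 : ic (Qd l H c) = 1 := if_pos hQc
        calc (1 : ℝ) = ic (Qd l H c) := h4.symm
          _ ≤ ∑ c ∈ Ψ r, ic (Qd l H c) :=
              Finset.single_le_sum (f := fun c => ic (Qd l H c)) (fun _ _ => ic_nn _) hc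
          _ ≤ ∑ r, ∑ c ∈ Ψ r, ic (Qd l H c) :=
              Finset.single_le_sum (f := fun r => ∑ c ∈ Ψ r, ic (Qd l H c))
                (fun _ _ => Finset.sum_nonneg fun _ _ => ic_nn _) (mem_univ r)
      have := ic_nn (Lbad l)
      linarith
    · have hLM : ∀ r, M ≤ (univ.filter fun z => l (r, z) = true).card := by
        intro r
        by_contra hcon
        exact h1 ⟨r, not_le.1 hcon⟩
      have hLof : ∀ r, Lof l r = univ.filter fun z => l (r, z) = true := by
        intro r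
        unfold Lof
        rw [if_neg]
        intro h0
        have := hLM r
        rw [h0, card_empty] at this
        omega
      have hmain := hABS ι J (Fin n → Bool) (Lof l) M ((m : ℝ) * w) ε (v H)
        (fun r => by rw [hLof r]; exact hLM r) hM hε hε1 (by positivity) hW hWJ
        (fun r c => sum_val01 _ _)
        (fun r c hc => by
          have hDT : ∀ c ∈ Ψ r, ∃ T : Pool.Agent.H68.AC.DT ((ι × J) × (Fin n → Bool)),
              T.depth ≤ w ∧ ∀ y, (∀ r u, u ∉ Lof l r → y (r, u) = true) →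
                (T.eval y = true ↔ c.2 ∈ c.1.lang (Q (tby e z H y))) := by
            intro c hc
            have h3 : ¬ Qd l H c := fun h => h2 ⟨r, c, hc, h⟩
            obtain ⟨T, hT1, hT2⟩ := not_not.1 h3
            refine ⟨T, hT1, fun y hy => hT2 y fun p hp => ?_⟩
            refine hy p.1 p.2 fun hcon => ?_
            rw [hLof, mem_filter] at hcon
            have h4 := hcon.2
            rw [hp] at h4
            exact absurd h4 (by simp)
          exact hΨm r (ι × J) (Fin n → Bool) w (Lof l) (fun y => Q (tby e z H y)) hDT c hc)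
      have hmain' : ∑ ω : ι × J → Bool × (Fin n → Bool), wt (Lof l) ω * ic (bad H ω) ≤ K := hmain
      have := ic_nn (Lbad l)
      linarith
  -- the sums
  have hlw : ∀ l : ((ι × J) × (Fin n → Bool)) → Bool, 0 ≤ lw q l := by
    intro l
    unfold lw
    refine Finset.prod_nonneg fun a _ => ?_
    split_ifs
    · exact hq.le
    · linarith
  have herr : 0 ≤ errT ((ι × J) × (Fin n → Bool)) (Ys n) (2 ^ (m + 1)) w G q k := by
    unfold errT
    have h1 : 0 ≤ 1 - q := by linarith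
    positivity
  have hH : ∀ H, ∑ b : ι × J → Bool, ∑ u : ι × J → Fin n → Bool,
      ic (bad H fun r => (b r, u r)) =
      (Fintype.card (Fin n → Bool) : ℝ) ^ Fintype.card (ι × J) * 2 ^ Fintype.card (ι × J) *
        ∑ l : ((ι × J) × (Fin n → Bool)) → Bool, lw q l *
          ∑ ω : ι × J → Bool × (Fin n → Bool), wt (Lof l) ω * ic (bad H ω) := by
    intro H
    have hP : (0 : ℝ) < (Fintype.card (Fin n → Bool) : ℝ) ^ Fintype.card (ι × J) := by
      have : 0 < Fintype.card (Fin n → Bool) := Fintype.card_pos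
      positivity
    have e1 : ∀ b : ι × J → Bool, ∑ u : ι × J → Fin n → Bool, ic (bad H fun r => (b r, u r)) =
        (Fintype.card (Fin n → Bool) : ℝ) ^ Fintype.card (ι × J) *
        ∑ l : ((ι × J) × (Fin n → Bool)) → Bool, lw q l *
          ∑ u : ι × J → Fin n → Bool, uw (Lof l) u * ic (bad H fun r => (b r, u r)) := by
      intro b
      rw [hSYM (ι × J) (Fin n → Bool) q fun u => ic (bad H fun r => (b r, u r))]
      field_simp
    have e2 : ∀ l : ((ι × J) × (Fin n → Bool)) → Bool,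
        ∑ b : ι × J → Bool, ∑ u : ι × J → Fin n → Bool,
          uw (Lof l) u * ic (bad H fun r => (b r, u r)) =
        2 ^ Fintype.card (ι × J) *
          ∑ ω : ι × J → Bool × (Fin n → Bool), wt (Lof l) ω * ic (bad H ω) := by
      intro l
      obtain ⟨-, -, -, w4⟩ := hWTS (ι × J) (Fin n → Bool) (Lof l) fun r => Lof_ne l r
      have w5 := w4 fun b u => ic (bad H fun r => (b r, u r))
      have w6 : ∑ ω : ι × J → Bool × (Fin n → Bool), wt (Lof l) ω * ic (bad H ω) =
          (∑ b : ι × J → Bool, ∑ u : ι × J → Fin n → Bool,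
            uw (Lof l) u * ic (bad H fun r => (b r, u r))) / 2 ^ Fintype.card (ι × J) := w5
      rw [w6]
      field_simp
    rw [Finset.sum_congr rfl fun b _ => e1 b, ← Finset.mul_sum, mul_assoc]
    congr 1
    rw [Finset.sum_comm, Finset.mul_sum]
    refine Finset.sum_congr rfl fun l _ => ?_
    rw [← Finset.mul_sum, e2 l]
    ring
  have hcnt : ((univ.filter fun y : (ι × J → Bool) × (ι × J → Hid (Fin n → Bool) (Ys n) k) ×
      (ι × J → Fin n → Bool) => Bdb A Q ε e (zby e z y.1 y.2.1 y.2.2)).card : ℝ) =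
      ∑ H : ι × J → Hid (Fin n → Bool) (Ys n) k, ∑ b : ι × J → Bool,
        ∑ u : ι × J → Fin n → Bool, ic (bad H fun r => (b r, u r)) := by
    rw [Finset.card_filter]
    push_cast
    rw [Fintype.sum_prod_type]
    have e1 : ∀ b : ι × J → Bool, ∑ x : (ι × J → Hid (Fin n → Bool) (Ys n) k) ×
        (ι × J → Fin n → Bool), (if Bdb A Q ε e (zby e z (b, x).1 (b, x).2.1 (b, x).2.2) then
          (1 : ℝ) else 0) = ∑ H : ι × J → Hid (Fin n → Bool) (Ys n) k,
        ∑ u : ι × J → Fin n → Bool, ic (bad H fun r => (b r, u r)) := by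
      intro b
      rw [Fintype.sum_prod_type]
      refine Finset.sum_congr rfl fun H _ => Finset.sum_congr rfl fun u _ => ?_
      have h1 := hbad b H u
      by_cases h2 : bad H fun r => (b r, u r)
      · rw [if_pos (h1.2 h2)]
        exact (if_pos h2).symm
      · rw [if_neg fun h => h2 (h1.1 h)]
        exact (if_neg h2).symm
    rw [Finset.sum_congr rfl fun b _ => e1 b]
    exact Finset.sum_comm
  rw [hcnt, Finset.sum_congr rfl fun H _ => hH H, ← Finset.mul_sum]
  -- the bound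
  obtain ⟨NH, hNH⟩ : ∃ NH : ℝ, NH = Fintype.card (ι × J → Hid (Fin n → Bool) (Ys n) k) := ⟨_, rfl⟩
  have hNH0 : 0 ≤ NH := by rw [hNH]; exact Nat.cast_nonneg _
  have hsum1 : ∑ l : ((ι × J) × (Fin n → Bool)) → Bool, lw q l * ic (Lbad l) ≤
      Fintype.card (ι × J) * M * (1 - q) ^ G' := by
    refine hLIV (ι × J) (Fin n → Bool) q M G' hq.le hq1 ?_
    rw [Fintype.card_fun, Fintype.card_bool, Fintype.card_fin]
    exact hG'M
  have hsum2 : ∀ r, ∀ c ∈ Ψ r, ∑ l : ((ι × J) × (Fin n → Bool)) → Bool, lw q l *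
      ∑ H : ι × J → Hid (Fin n → Bool) (Ys n) k, ic (Qd l H c) ≤
      errT ((ι × J) × (Fin n → Bool)) (Ys n) (2 ^ (m + 1)) w G q k * NH := by
    intro r c hc
    rw [hNH]
    exact hBLD (ι × J) n k e he z Q hQ (m + 1) w G q hw hmw hq hq64 hG hcard c
      (Nat.lt_succ_of_le (hΨs r c hc))
  have hbound : ∑ H : ι × J → Hid (Fin n → Bool) (Ys n) k,
      ∑ l : ((ι × J) × (Fin n → Bool)) → Bool, lw q l *
        ∑ ω : ι × J → Bool × (Fin n → Bool), wt (Lof l) ω * ic (bad H ω) ≤
      NH * (Fintype.card (ι × J) * 2 ^ (2 * m) *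
        errT ((ι × J) × (Fin n → Bool)) (Ys n) (2 ^ (m + 1)) w G q k +
      Fintype.card (ι × J) * M * (1 - q) ^ G' + K) := by
    have b1 : ∑ H : ι × J → Hid (Fin n → Bool) (Ys n) k,
        ∑ l : ((ι × J) × (Fin n → Bool)) → Bool, lw q l *
          ∑ ω : ι × J → Bool × (Fin n → Bool), wt (Lof l) ω * ic (bad H ω) ≤
        ∑ H : ι × J → Hid (Fin n → Bool) (Ys n) k,
        ∑ l : ((ι × J) × (Fin n → Bool)) → Bool, lw q l *
          (ic (Lbad l) + ∑ r, ∑ c ∈ Ψ r, ic (Qd l H c) + K) :=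
      Finset.sum_le_sum fun H _ => Finset.sum_le_sum fun l _ =>
        mul_le_mul_of_nonneg_left (hfix l H) (hlw l)
    have b2 : ∑ H : ι × J → Hid (Fin n → Bool) (Ys n) k,
        ∑ l : ((ι × J) × (Fin n → Bool)) → Bool, lw q l *
          (ic (Lbad l) + ∑ r, ∑ c ∈ Ψ r, ic (Qd l H c) + K) =
        NH * ∑ l : ((ι × J) × (Fin n → Bool)) → Bool, lw q l * ic (Lbad l) +
        ∑ r, ∑ c ∈ Ψ r, ∑ l : ((ι × J) × (Fin n → Bool)) → Bool, lw q l *
          ∑ H : ι × J → Hid (Fin n → Bool) (Ys n) k, ic (Qd l H c) +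
        NH * (K * ∑ l : ((ι × J) × (Fin n → Bool)) → Bool, lw q l) := by
      simp only [mul_add, Finset.sum_add_distrib]
      congr 1
      · congr 1
        · rw [Finset.sum_const, Finset.card_univ, nsmul_eq_mul, hNH]
        · rw [Finset.sum_comm]
          have : ∀ l : ((ι × J) × (Fin n → Bool)) → Bool,
              ∑ H : ι × J → Hid (Fin n → Bool) (Ys n) k, lw q l * ∑ r, ∑ c ∈ Ψ r, ic (Qd l H c) =
              ∑ r, ∑ c ∈ Ψ r, lw q l *
                ∑ H : ι × J → Hid (Fin n → Bool) (Ys n) k, ic (Qd l H c) := by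
            intro l
            rw [← Finset.mul_sum, Finset.sum_comm, Finset.mul_sum]
            refine Finset.sum_congr rfl fun r _ => ?_
            rw [Finset.sum_comm, Finset.mul_sum]
          rw [Finset.sum_congr rfl fun l _ => this l, Finset.sum_comm]
          refine Finset.sum_congr rfl fun r _ => ?_
          rw [Finset.sum_comm]
      · rw [Finset.sum_const, Finset.card_univ, nsmul_eq_mul, ← hNH, ← Finset.sum_mul]
        ring
    have b3 : ∑ r, ∑ c ∈ Ψ r, ∑ l : ((ι × J) × (Fin n → Bool)) → Bool, lw q l *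
          ∑ H : ι × J → Hid (Fin n → Bool) (Ys n) k, ic (Qd l H c) ≤
        Fintype.card (ι × J) * (2 ^ (2 * m) *
          (errT ((ι × J) × (Fin n → Bool)) (Ys n) (2 ^ (m + 1)) w G q k * NH)) := by
      have b4 : ∀ r ∈ (univ : Finset (ι × J)), ∑ c ∈ Ψ r,
          ∑ l : ((ι × J) × (Fin n → Bool)) → Bool, lw q l *
          ∑ H : ι × J → Hid (Fin n → Bool) (Ys n) k, ic (Qd l H c) ≤
          2 ^ (2 * m) *
            (errT ((ι × J) × (Fin n → Bool)) (Ys n) (2 ^ (m + 1)) w G q k * NH) := by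
        intro r _
        refine (Finset.sum_le_sum fun c hc => hsum2 r c hc).trans ?_
        rw [Finset.sum_const, nsmul_eq_mul]
        have : ((Ψ r).card : ℝ) ≤ 2 ^ (2 * m) := by exact_mod_cast hΨc r
        gcongr
      refine (Finset.sum_le_sum b4).trans (le_of_eq ?_)
      rw [Finset.sum_const, Finset.card_univ, nsmul_eq_mul]
    rw [b2] at b1
    have b5 : ∑ l : ((ι × J) × (Fin n → Bool)) → Bool, lw q l = 1 :=
      hLWS ((ι × J) × (Fin n → Bool)) q
    rw [b5] at b1
    have b6 := mul_le_mul_of_nonneg_left hsum1 hNH0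
    calc _ ≤ _ := b1
      _ ≤ NH * (Fintype.card (ι × J) * M * (1 - q) ^ G') +
          Fintype.card (ι × J) * (2 ^ (2 * m) *
          (errT ((ι × J) × (Fin n → Bool)) (Ys n) (2 ^ (m + 1)) w G q k * NH)) +
          NH * (K * 1) := by gcongr
      _ = _ := by ring
  have hcardY : (Fintype.card ((ι × J → Bool) × (ι × J → Hid (Fin n → Bool) (Ys n) k) ×
      (ι × J → Fin n → Bool)) : ℝ) = (Fintype.card (Fin n → Bool) : ℝ) ^ Fintype.card (ι × J) *
      2 ^ Fintype.card (ι × J) * NH := by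
    rw [Fintype.card_prod, Fintype.card_prod, Fintype.card_fun, Fintype.card_bool, hNH,
      Fintype.card_fun (α := ι × J) (β := Fin n → Bool)]
    push_cast
    ring
  rw [hcardY]
  calc _ ≤ (Fintype.card (Fin n → Bool) : ℝ) ^ Fintype.card (ι × J) *
        2 ^ Fintype.card (ι × J) * (NH * (Fintype.card (ι × J) * 2 ^ (2 * m) *
        errT ((ι × J) × (Fin n → Bool)) (Ys n) (2 ^ (m + 1)) w G q k +
      Fintype.card (ι × J) * M * (1 - q) ^ G' + K)) := by gcongr
    _ = _ := by ring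

end Pool.Agent.H13.XZ
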