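import Pool.Agent.H18.XZ.TB

/-!
# Row TBZ: tables
-/

set_option autoImplicit false

namespace Pool.Agent.H13.XZ

open Finset Pool.Agent.H6.NB Pool.Agent.H70.OQ Pool.Agent.H70.EH Pool.Agent.H70.EI Pool.Agent.H78.XQ
open Pool.Agent.H66.IQ Pool.Agent.H66.AV
open Pool.Agent.H18.XZ

theorem tbz_row {X : Type} [DecidableEq X] (Y : ℕ → Type) [∀ i, DecidableEq (Y i)] (k : ℕ)
    (b : Bool) (H : Hid X Y k) (u : X) :
    (if b then tabU k H u else tabT k H) =
      sv (fun u' => !decide ((if b then some u else none) = some u')) k H := by
  cases b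
  · simp [tabT]
  · simp only [if_true]
    unfold tabU
    congr 1
    funext x'
    by_cases h : x' = u
    · simp [h]
    · have h2 : ¬ some u = some x' := fun h3 => h (Option.some.inj h3).symm
      simp [h, h2]

open Classical in
theorem pf_TBZ : Pool.Agent.H18.XZ.T_TBZ := by
  intro R _ n k e he z b H u
  have h2 : ∀ r, zby e z b H u (e r) = (b r, H r, u r) := by
    intro r
    have hex : ∃ r', e r' = e r := ⟨r, rfl⟩
    have hc : hex.choose = r := he hex.choose_spec
    unfold zby
    rw [dif_pos hex, hc]
  have hT : ∀ (y : R × (Fin n → Bool) → Bool) r, tby e z H y (e r) =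
      sv (fun u => y (r, u)) k (H r) := by
    intro y r
    have hex : ∃ r', e r' = e r := ⟨r, rfl⟩
    have hc : hex.choose = r := he hex.choose_spec
    unfold tby
    rw [dif_pos hex, hc]
  have hT0 : ∀ (y : R × (Fin n → Bool) → Bool) x, (¬ ∃ r, e r = x) → tby e z H y x = tbl z x := by
    intro y x hx
    unfold tby
    rw [dif_neg hx]
  have hz0 : ∀ x, (¬ ∃ r, e r = x) → zby e z b H u x = z x := by
    intro x hx
    unfold zby
    rw [dif_neg hx]
  refine ⟨?_, h2, fun r => ?_⟩
  · funext x
    by_cases h : ∃ r, e r = x
    · obtain ⟨r, rfl⟩ := h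
      rw [hT]
      unfold tbl
      rw [h2 r]
      exact tbz_row (Ys n) k (b r) (H r) (u r)
    · rw [hT0 _ x h]
      unfold tbl
      rw [hz0 x h]
  · funext x
    by_cases h : ∃ r, e r = x
    · obtain ⟨r', rfl⟩ := h
      rw [hT]
      unfold tbl zer
      by_cases hr : r' = r
      · subst hr
        rw [Function.update_self, h2 r']
        have e1 : (fun u' => pat (rem r' (cf fun r => (b r, u r))) (r', u')) =
            fun _ : Fin n → Bool => true := by
          funext u'
          unfold pat rem
          simp
        rw [e1]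
        rfl
      · have hne : e r' ≠ e r := fun h3 => hr (he h3)
        rw [Function.update_of_ne hne, h2 r']
        have e1 : (fun u' => pat (rem r (cf fun r => (b r, u r))) (r', u')) =
            fun u' => !decide ((if b r' then some (u r') else none) = some u') := by
          funext u'
          unfold pat rem
          simp only [Function.update_of_ne hr]
          rfl
        rw [e1]
        exact tbz_row (Ys n) k (b r') (H r') (u r')
    · rw [hT0 _ x h]
      have hne : x ≠ e r := fun h3 => h ⟨r, h3.symm⟩
      unfold tbl zer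
      rw [Function.update_of_ne hne, hz0 x h]

end Pool.Agent.H13.XZ
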